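import Pool.Agent.VM5.Stmts
import Pool.Agent.Helper98_VM5.Kit

/-!
# Squad VMF, module QEE: the number of `(x, x', d, d')` for a given common divisor
-/

set_option autoImplicit false

namespace Pool.Agent.VM5.H89

open Pool.Agent.VM5

/-- the key inequality -/
theorem key {N D K u H e x x' d d' : ℕ} {t : ℝ} {b : ℤ} (hND : N ≤ 5 * D * K) (hK : 1 ≤ K)
    (hHN : H ≤ N) (hx : e * x ≤ H) (hx' : e * x' ≤ H) (hd : d ≤ 2 * D) (hd' : d' ≤ 2 * D)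
    (hb : |t - (b : ℝ) / (u : ℝ)| * (5 * ((e : ℝ) * |(x : ℝ) * (d : ℝ) ^ 4 -
          (x' : ℝ) * (d' : ℝ) ^ 4|)) ≤ 1 / (K : ℝ) ^ 4) :
    (e : ℝ) * |(x : ℝ) * (d : ℝ) ^ 4 - (x' : ℝ) * (d' : ℝ) ^ 4| * WW N u t b ≤
      125 * u * N * (D : ℝ) ^ 4 := by
  have hKr : (1 : ℝ) ≤ K := by exact_mod_cast hK
  have hNDr : (N : ℝ) ≤ 5 * D * K := by exact_mod_cast hND
  have hHNr : (H : ℝ) ≤ N := by exact_mod_cast hHN
  have hxr : (e : ℝ) * x ≤ H := by exact_mod_cast hx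
  have hxr' : (e : ℝ) * x' ≤ H := by exact_mod_cast hx'
  have hdr : (d : ℝ) ≤ 2 * D := by exact_mod_cast hd
  have hdr' : (d' : ℝ) ≤ 2 * D := by exact_mod_cast hd'
  obtain ⟨z, hz⟩ : ∃ z : ℝ, z = |(x : ℝ) * (d : ℝ) ^ 4 - (x' : ℝ) * (d' : ℝ) ^ 4| := ⟨_, rfl⟩
  rw [← hz] at hb ⊢
  have hz0 : 0 ≤ z := by rw [hz]; exact abs_nonneg _
  have he0 : (0 : ℝ) ≤ e := Nat.cast_nonneg _
  have hN0 : (0 : ℝ) ≤ N := Nat.cast_nonneg _
  have hD0 : (0 : ℝ) ≤ D := Nat.cast_nonneg _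
  have hu0 : (0 : ℝ) ≤ u := Nat.cast_nonneg _
  have hH0 : (0 : ℝ) ≤ H := Nat.cast_nonneg _
  -- the trivial bound
  have h1 : (e : ℝ) * z ≤ 16 * H * (D : ℝ) ^ 4 := by
    have a1 : (e : ℝ) * ((x : ℝ) * (d : ℝ) ^ 4) ≤ 16 * H * (D : ℝ) ^ 4 := by
      have hq : (d : ℝ) ^ 4 ≤ (2 * (D : ℝ)) ^ 4 := pow_le_pow_left₀ (Nat.cast_nonneg _) hdr 4
      calc (e : ℝ) * ((x : ℝ) * (d : ℝ) ^ 4) = ((e : ℝ) * (x : ℝ)) * (d : ℝ) ^ 4 := by ring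
        _ ≤ (H : ℝ) * (2 * (D : ℝ)) ^ 4 := mul_le_mul hxr hq (by positivity) hH0
        _ = 16 * (H : ℝ) * (D : ℝ) ^ 4 := by ring
    have a2 : (e : ℝ) * ((x' : ℝ) * (d' : ℝ) ^ 4) ≤ 16 * H * (D : ℝ) ^ 4 := by
      have hq : (d' : ℝ) ^ 4 ≤ (2 * (D : ℝ)) ^ 4 := pow_le_pow_left₀ (Nat.cast_nonneg _) hdr' 4
      calc (e : ℝ) * ((x' : ℝ) * (d' : ℝ) ^ 4) = ((e : ℝ) * (x' : ℝ)) * (d' : ℝ) ^ 4 := by ring
        _ ≤ (H : ℝ) * (2 * (D : ℝ)) ^ 4 := mul_le_mul hxr' hq (by positivity) hH0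
        _ = 16 * (H : ℝ) * (D : ℝ) ^ 4 := by ring
    have a3 : 0 ≤ (e : ℝ) * ((x : ℝ) * (d : ℝ) ^ 4) := by positivity
    have a4 : 0 ≤ (e : ℝ) * ((x' : ℝ) * (d' : ℝ) ^ 4) := by positivity
    have a5 : (e : ℝ) * z = |(e : ℝ) * ((x : ℝ) * (d : ℝ) ^ 4) -
        (e : ℝ) * ((x' : ℝ) * (d' : ℝ) ^ 4)| := by
      rw [hz, ← mul_sub, abs_mul, abs_of_nonneg he0]
    rw [a5, abs_le]
    constructor <;> linarith
  unfold WW
  rw [mul_max_of_nonneg _ _ (by positivity), max_le_iff]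
  constructor
  · calc (e : ℝ) * z * u ≤ (16 * H * (D : ℝ) ^ 4) * u := mul_le_mul_of_nonneg_right h1 hu0
      _ ≤ (16 * N * (D : ℝ) ^ 4) * u := by
          refine mul_le_mul_of_nonneg_right ?_ hu0
          refine mul_le_mul_of_nonneg_right ?_ (by positivity)
          linarith
      _ = 16 * u * N * (D : ℝ) ^ 4 := by ring
      _ ≤ 125 * u * N * (D : ℝ) ^ 4 := by
          have : 0 ≤ (u : ℝ) * N * (D : ℝ) ^ 4 := by positivity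
          nlinarith
  · have h2 : |t - (b : ℝ) / (u : ℝ)| * ((e : ℝ) * z) * (5 * (K : ℝ) ^ 4) ≤ 1 := by
      have hK4 : (0 : ℝ) < (K : ℝ) ^ 4 := by positivity
      rw [le_div_iff₀ hK4] at hb
      nlinarith [hb]
    have h3 : (N : ℝ) ^ 4 ≤ 625 * ((D : ℝ) ^ 4 * (K : ℝ) ^ 4) := by
      calc (N : ℝ) ^ 4 ≤ (5 * D * K) ^ 4 := pow_le_pow_left₀ hN0 hNDr 4
        _ = 625 * ((D : ℝ) ^ 4 * (K : ℝ) ^ 4) := by ring
    have h4 : 0 ≤ |t - (b : ℝ) / (u : ℝ)| * ((e : ℝ) * z) := by positivity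
    calc (e : ℝ) * z * (|t - (b : ℝ) / (u : ℝ)| * u * (N : ℝ) ^ 5)
        = (|t - (b : ℝ) / (u : ℝ)| * ((e : ℝ) * z)) * (N : ℝ) ^ 4 * (u * N) := by ring
      _ ≤ (|t - (b : ℝ) / (u : ℝ)| * ((e : ℝ) * z)) * (625 * ((D : ℝ) ^ 4 * (K : ℝ) ^ 4)) *
          (u * N) := by
          refine mul_le_mul_of_nonneg_right ?_ (by positivity)
          exact mul_le_mul_of_nonneg_left h3 h4
      _ = (|t - (b : ℝ) / (u : ℝ)| * ((e : ℝ) * z) * (5 * (K : ℝ) ^ 4)) *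
          (125 * (D : ℝ) ^ 4 * (u * N)) := by ring
      _ ≤ 1 * (125 * (D : ℝ) ^ 4 * (u * N)) := mul_le_mul_of_nonneg_right h2 (by positivity)
      _ = 125 * u * N * (D : ℝ) ^ 4 := by ring

/-- the quotients are close -/
theorem slope {N D u H e x x' d d' : ℕ} {w : ℝ} (hw : 0 < w) (hH : 1 ≤ H) (he : 1 ≤ e)
    (hx' : H < 2 * (e * x')) (hd : D < d)
    (hk : (e : ℝ) * |(x : ℝ) * (d : ℝ) ^ 4 - (x' : ℝ) * (d' : ℝ) ^ 4| * w ≤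
      125 * u * N * (D : ℝ) ^ 4) :
    |(x : ℝ) / (x' : ℝ) - (d' : ℝ) ^ 4 / (d : ℝ) ^ 4| ≤ 250 * u * N / (w * H) := by
  have hx0 : 0 < x' := by
    rcases Nat.eq_zero_or_pos x' with h | h
    · subst h; simp at hx'
    · exact h
  have hx0r : (0 : ℝ) < x' := by exact_mod_cast hx0
  have hd0r : (0 : ℝ) < d := by exact_mod_cast (lt_of_le_of_lt (Nat.zero_le _) hd)
  have her : (0 : ℝ) < e := by exact_mod_cast he
  have hHr : (0 : ℝ) < H := by exact_mod_cast hH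
  have hxr : (H : ℝ) ≤ 2 * (e * x') := by exact_mod_cast hx'.le
  have hdr : (D : ℝ) ^ 4 ≤ (d : ℝ) ^ 4 :=
    pow_le_pow_left₀ (Nat.cast_nonneg _) (by exact_mod_cast hd.le) 4
  obtain ⟨z, hz⟩ : ∃ z : ℝ, z = |(x : ℝ) * (d : ℝ) ^ 4 - (x' : ℝ) * (d' : ℝ) ^ 4| := ⟨_, rfl⟩
  rw [← hz] at hk
  have h1 : |(x : ℝ) / (x' : ℝ) - (d' : ℝ) ^ 4 / (d : ℝ) ^ 4| = z / (x' * (d : ℝ) ^ 4) := by
    rw [hz, div_sub_div _ _ hx0r.ne' (by positivity), abs_div,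
      abs_of_pos (show (0 : ℝ) < x' * (d : ℝ) ^ 4 by positivity)]
  rw [h1, div_le_div_iff₀ (by positivity) (by positivity)]
  refine le_of_mul_le_mul_left ?_ her
  calc (e : ℝ) * (z * (w * H)) = (e * z * w) * H := by ring
    _ ≤ (125 * u * N * (D : ℝ) ^ 4) * H := mul_le_mul_of_nonneg_right hk hHr.le
    _ ≤ (125 * u * N * (d : ℝ) ^ 4) * (2 * (e * x')) := by
        refine mul_le_mul ?_ hxr hHr.le (by positivity)
        exact mul_le_mul_of_nonneg_left hdr (by positivity)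
    _ = e * (250 * u * N * (x' * (d : ℝ) ^ 4)) := by ring

/-- the divisor `M` -/
theorem dvd_M {u e : ℕ} (hu : 1 ≤ u) (z : ℤ) (h : (u : ℤ) ∣ 5 * ((e : ℤ) * z)) :
    ((u / Nat.gcd u (5 * e) : ℕ) : ℤ) ∣ z := by
  have hG : 0 < Nat.gcd u (5 * e) := Nat.gcd_pos_of_pos_left _ hu
  have h1 : u ∣ (5 * e) * z.natAbs := by
    have h2 := Int.natAbs_dvd_natAbs.mpr h
    rw [Int.natAbs_natCast] at h2
    have h3 : (5 * ((e : ℤ) * z)).natAbs = (5 * e) * z.natAbs := by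
      rw [Int.natAbs_mul, Int.natAbs_mul, Int.natAbs_natCast, ← mul_assoc]
      rfl
    rwa [h3] at h2
  have h4 : u / Nat.gcd u (5 * e) ∣ (5 * e / Nat.gcd u (5 * e)) * z.natAbs := by
    obtain ⟨c, hc⟩ := h1
    refine ⟨c, ?_⟩
    have h5 : Nat.gcd u (5 * e) ∣ 5 * e := Nat.gcd_dvd_right _ _
    have h6 : Nat.gcd u (5 * e) ∣ u := Nat.gcd_dvd_left _ _
    refine Nat.eq_of_mul_eq_mul_left hG ?_
    rw [← mul_assoc, Nat.mul_div_cancel' h5, hc, ← mul_assoc, Nat.mul_div_cancel' h6]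
  have h7 : Nat.Coprime (u / Nat.gcd u (5 * e)) (5 * e / Nat.gcd u (5 * e)) :=
    Nat.coprime_div_gcd_div_gcd hG
  have h8 := h7.dvd_of_dvd_mul_left h4
  exact Int.natCast_dvd.mpr h8

/-- `u / gcd (u, 5 e) ≥ u / (5 g)` -/
theorem M_ge {u e x g : ℕ} (hu : 1 ≤ u) (hg : Nat.gcd (e * x) u = g) :
    u ≤ 5 * g * (u / Nat.gcd u (5 * e)) := by
  have h1 : Nat.gcd u (5 * e) ∣ 5 * g := by
    have a1 : Nat.gcd u (5 * e) ∣ Nat.gcd (5 * u) (5 * e) :=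
      Nat.gcd_dvd_gcd_of_dvd_left _ (Dvd.intro_left 5 rfl)
    rw [Nat.gcd_mul_left] at a1
    refine a1.trans (mul_dvd_mul_left 5 ?_)
    rw [← hg]
    exact Nat.dvd_gcd ((Nat.gcd_dvd_right _ _).trans (Dvd.intro x rfl)) (Nat.gcd_dvd_left _ _)
  have hg0 : 0 < g := by
    rw [← hg]
    exact Nat.gcd_pos_of_pos_right _ hu
  have h2 := Nat.le_of_dvd (by positivity) h1
  calc u = Nat.gcd u (5 * e) * (u / Nat.gcd u (5 * e)) :=
        (Nat.mul_div_cancel' (Nat.gcd_dvd_left _ _)).symm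
    _ ≤ 5 * g * (u / Nat.gcd u (5 * e)) := Nat.mul_le_mul_right _ h2

/-- a prime which does not divide `u` is prime to the divisors of `u` -/
theorem cop {u d M : ℕ} (hd : d.Prime) (hdu : ¬ d ∣ u) (hM : M ∣ u) : Nat.Coprime d M :=
  (Nat.Prime.coprime_iff_not_dvd hd).mpr fun h => hdu (h.trans hM)

/-- `x` is prime to `M` -/
theorem cop_x {u M x x' d d' : ℕ} (hM : M ∣ u) (hxx : Nat.Coprime x x') (hd' : d'.Prime)
    (hdu' : ¬ d' ∣ u) (h : (M : ℤ) ∣ (x : ℤ) * (d : ℤ) ^ 4 - (x' : ℤ) * (d' : ℤ) ^ 4) :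
    Nat.Coprime x M := by
  rw [Nat.coprime_iff_gcd_eq_one]
  by_contra hne
  obtain ⟨p, hp, hpg⟩ := Nat.exists_prime_and_dvd hne
  have hpx : p ∣ x := hpg.trans (Nat.gcd_dvd_left _ _)
  have hpM : p ∣ M := hpg.trans (Nat.gcd_dvd_right _ _)
  have h1 : (p : ℤ) ∣ (x : ℤ) * (d : ℤ) ^ 4 - (x' : ℤ) * (d' : ℤ) ^ 4 :=
    (Int.natCast_dvd_natCast.mpr hpM).trans h
  have h2 : (p : ℤ) ∣ (x : ℤ) * (d : ℤ) ^ 4 :=
    Dvd.dvd.mul_right (Int.natCast_dvd_natCast.mpr hpx) _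
  have h3 : (p : ℤ) ∣ (x' : ℤ) * (d' : ℤ) ^ 4 := by
    have := dvd_sub h2 h1
    rwa [sub_sub_cancel] at this
  have h4 : p ∣ x' * d' ^ 4 := by exact_mod_cast h3
  rcases (Nat.Prime.dvd_mul hp).mp h4 with h5 | h5
  · have := Nat.dvd_gcd hpx h5
    rw [hxx] at this
    exact hp.one_lt.ne' (Nat.dvd_one.mp this)
  · have h6 := hp.dvd_of_dvd_pow h5
    have h7 := (Nat.prime_dvd_prime_iff_eq hp hd').mp h6
    exact hdu' (h7 ▸ hpM.trans hM)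

/-- the case of fixed `(d, d')` -/
theorem al (slp : SlpStmt) (A : Finset (ℕ × ℕ)) (Y M d d' : ℕ) (δ : ℝ) (hM : 1 ≤ M)
    (hδ : 0 ≤ δ) (hd : Nat.Coprime d M)
    (hA : ∀ p ∈ A, 1 ≤ p.1 ∧ 1 ≤ p.2 ∧ p.2 ≤ Y ∧ Nat.Coprime p.1 p.2 ∧
      |(p.1 : ℝ) / (p.2 : ℝ) - (d' : ℝ) ^ 4 / (d : ℝ) ^ 4| ≤ δ ∧
      (M : ℤ) ∣ (p.1 : ℤ) * (d : ℤ) ^ 4 - (p.2 : ℤ) * (d' : ℤ) ^ 4) :
    (A.card : ℝ) ≤ 1 + 2 * δ * (Y : ℝ) ^ 2 / (M : ℝ) := by
  refine slp A Y M ((d' : ℝ) ^ 4 / (d : ℝ) ^ 4 - δ) (2 * δ) hM (by linarith) ?_ ?_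
  · intro p hp
    obtain ⟨h1, h2, h3, h4, h5, -⟩ := hA p hp
    rw [abs_le] at h5
    refine ⟨h1, h2, h3, h4, by linarith, by linarith⟩
  · intro p hp p' hp'
    have h1 := (hA p hp).2.2.2.2.2
    have h2 := (hA p' hp').2.2.2.2.2
    have h3 : (M : ℤ) ∣ (d : ℤ) ^ 4 * ((p.1 : ℤ) * (p'.2 : ℤ) - (p'.1 : ℤ) * (p.2 : ℤ)) := by
      have := dvd_sub (Dvd.dvd.mul_left h1 (p'.2 : ℤ)) (Dvd.dvd.mul_left h2 (p.2 : ℤ))
      refine this.trans (dvd_of_eq ?_)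
      ring
    have h4 : IsCoprime (M : ℤ) ((d : ℤ) ^ 4) := by
      refine IsCoprime.pow_right ?_
      exact (Nat.isCoprime_iff_coprime.mpr hd).symm
    exact h4.dvd_of_dvd_mul_left h3

/-- the case of fixed `(x, x')` -/
theorem be (slp : SlpStmt) (A : Finset (ℕ × ℕ)) (D M x x' u R : ℕ) (δ : ℝ) (hM : 1 ≤ M)
    (hMu : M ∣ u) (hδ : 0 ≤ δ) (hx : Nat.Coprime x M)
    (hR : ((Finset.range M).filter (fun x => Nat.Coprime x M ∧ x ^ 4 ≡ 1 [MOD M])).card ≤ R)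
    (hA : ∀ p ∈ A, D < p.1 ∧ p.1 ≤ 2 * D ∧ D < p.2 ∧ p.2 ≤ 2 * D ∧ p.1.Prime ∧ p.2.Prime ∧
      p.1 ≠ p.2 ∧ ¬ p.1 ∣ u ∧ ¬ p.2 ∣ u ∧
      |(x' : ℝ) / (x : ℝ) - (p.1 : ℝ) ^ 4 / (p.2 : ℝ) ^ 4| ≤ δ ∧
      (M : ℤ) ∣ (x : ℤ) * (p.1 : ℤ) ^ 4 - (x' : ℤ) * (p.2 : ℤ) ^ 4) :
    (A.card : ℝ) ≤ (R : ℝ) * (1 + 16 * δ * (D : ℝ) ^ 2 / (M : ℝ)) := by
  classical
  have : NeZero M := ⟨by omega⟩
  rcases A.eq_empty_or_nonempty with rfl | ⟨q, hq⟩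
  · simp only [Finset.card_empty, Nat.cast_zero]
    positivity
  -- units
  have hun : ∀ p ∈ A, IsUnit (p.1 : ZMod M) ∧ IsUnit (p.2 : ZMod M) := by
    intro p hp
    obtain ⟨-, -, -, -, h5, h6, -, h8, h9, -, -⟩ := hA p hp
    exact ⟨(ZMod.isUnit_iff_coprime _ _).mpr (cop h5 h8 hMu),
      (ZMod.isUnit_iff_coprime _ _).mpr (cop h6 h9 hMu)⟩
  have hxu : IsUnit (x : ZMod M) := (ZMod.isUnit_iff_coprime _ _).mpr hx
  have hcong : ∀ p ∈ A, (x : ZMod M) * (p.1 : ZMod M) ^ 4 = (x' : ZMod M) * (p.2 : ZMod M) ^ 4 := by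
    intro p hp
    have h := (hA p hp).2.2.2.2.2.2.2.2.2.2
    rw [← ZMod.intCast_zmod_eq_zero_iff_dvd, Int.cast_sub, sub_eq_zero] at h
    push_cast at h
    exact h
  obtain ⟨c, hc⟩ : ∃ c : ℕ × ℕ → ZMod M, c = fun p =>
    ((p.1 : ZMod M) * (q.2 : ZMod M)) * ((p.2 : ZMod M) * (q.1 : ZMod M))⁻¹ := ⟨_, rfl⟩
  have hcu : ∀ p ∈ A, c p * ((p.2 : ZMod M) * (q.1 : ZMod M)) =
      (p.1 : ZMod M) * (q.2 : ZMod M) := by
    intro p hp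
    rw [hc]
    have h1 : IsUnit ((p.2 : ZMod M) * (q.1 : ZMod M)) := (hun p hp).2.mul (hun q hq).1
    simp only
    rw [mul_assoc, ZMod.inv_mul_of_unit _ h1, mul_one]
  have hc4 : ∀ p ∈ A, c p ^ 4 = 1 := by
    intro p hp
    have h1 := congrArg (fun z => (x : ZMod M) * z ^ 4) (hcu p hp)
    simp only [mul_pow] at h1
    have h2 := hcong p hp
    have h3 := hcong q hq
    have h4 : c p ^ 4 * ((x : ZMod M) * ((p.2 : ZMod M) ^ 4 * (q.1 : ZMod M) ^ 4)) =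
        1 * ((x : ZMod M) * ((p.2 : ZMod M) ^ 4 * (q.1 : ZMod M) ^ 4)) := by
      calc c p ^ 4 * ((x : ZMod M) * ((p.2 : ZMod M) ^ 4 * (q.1 : ZMod M) ^ 4))
          = (x : ZMod M) * (c p ^ 4 * ((p.2 : ZMod M) ^ 4 * (q.1 : ZMod M) ^ 4)) := by ring
        _ = (x : ZMod M) * ((p.1 : ZMod M) ^ 4 * (q.2 : ZMod M) ^ 4) := h1
        _ = ((x : ZMod M) * (p.1 : ZMod M) ^ 4) * (q.2 : ZMod M) ^ 4 := by ring
        _ = ((x' : ZMod M) * (p.2 : ZMod M) ^ 4) * (q.2 : ZMod M) ^ 4 := by rw [h2]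
        _ = ((x' : ZMod M) * (q.2 : ZMod M) ^ 4) * (p.2 : ZMod M) ^ 4 := by ring
        _ = ((x : ZMod M) * (q.1 : ZMod M) ^ 4) * (p.2 : ZMod M) ^ 4 := by rw [h3]
        _ = 1 * ((x : ZMod M) * ((p.2 : ZMod M) ^ 4 * (q.1 : ZMod M) ^ 4)) := by ring
    have h5 : IsUnit ((x : ZMod M) * ((p.2 : ZMod M) ^ 4 * (q.1 : ZMod M) ^ 4)) :=
      hxu.mul (((hun p hp).2.pow 4).mul ((hun q hq).1.pow 4))
    exact h5.mul_right_cancel h4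
  -- the classes
  obtain ⟨B, hB⟩ : ∃ B : Finset ℕ,
    B = (Finset.range M).filter (fun x => Nat.Coprime x M ∧ x ^ 4 ≡ 1 [MOD M]) := ⟨_, rfl⟩
  have hmap : ∀ p ∈ A, (c p).val ∈ B := by
    intro p hp
    have h1 := hc4 p hp
    have h2 : (((c p).val : ℕ) : ZMod M) = c p := ZMod.natCast_zmod_val _
    rw [hB, Finset.mem_filter, Finset.mem_range]
    refine ⟨ZMod.val_lt _, ?_, ?_⟩
    · rw [← ZMod.isUnit_iff_coprime, h2]
      exact IsUnit.of_pow_eq_one h1 (by norm_num)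
    · rw [← ZMod.natCast_eq_natCast_iff, Nat.cast_pow, h2, h1, Nat.cast_one]
  have hcard : A.card = ∑ ρ ∈ B, (A.filter (fun p => (c p).val = ρ)).card :=
    Finset.card_eq_sum_card_fiberwise fun p hp => Finset.mem_coe.mpr (hmap p (Finset.mem_coe.mp hp))
  have hfib : ∀ ρ ∈ B, ((A.filter (fun p => (c p).val = ρ)).card : ℝ) ≤
      1 + 16 * δ * (D : ℝ) ^ 2 / (M : ℝ) := by
    intro ρ _
    rcases (A.filter (fun p => (c p).val = ρ)).eq_empty_or_nonempty with h0 | h0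
    · rw [h0]
      simp only [Finset.card_empty, Nat.cast_zero]
      positivity
    obtain ⟨p₀, hp₀, hmin⟩ := Finset.exists_min_image _
      (fun p : ℕ × ℕ => (p.1 : ℝ) / (p.2 : ℝ)) h0
    have hslp := slp (A.filter (fun p => (c p).val = ρ)) (2 * D) M
      ((p₀.1 : ℝ) / (p₀.2 : ℝ)) (4 * δ) hM (by linarith) ?_ ?_
    · refine hslp.trans (le_of_eq ?_)
      push_cast
      ring
    · intro p hp
      have hpA := (Finset.mem_filter.mp hp).1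
      have hp0A := (Finset.mem_filter.mp hp₀).1
      obtain ⟨h1, h2, h3, h4, h5, h6, h7, h8, h9, h10, -⟩ := hA p hpA
      obtain ⟨k1, k2, k3, k4, k5, k6, k7, k8, k9, k10, -⟩ := hA p₀ hp0A
      refine ⟨h5.one_lt.le, h6.one_lt.le, h4, (Nat.coprime_primes h5 h6).mpr h7,
        hmin p hp, ?_⟩
      -- slopes
      have hs : ∀ a b : ℕ, D < a → a ≤ 2 * D → D < b → b ≤ 2 * D → (1 / 2 : ℝ) ≤ (a : ℝ) / b := by
        intro a b ha1 _ hb1 hb2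
        have hb0 : (0 : ℝ) < b := by exact_mod_cast (lt_of_le_of_lt (Nat.zero_le _) hb1)
        rw [div_le_div_iff₀ (by norm_num) hb0]
        have e1 : (b : ℝ) ≤ 2 * D := by exact_mod_cast hb2
        have e2 : (D : ℝ) ≤ a := by exact_mod_cast ha1.le
        linarith
      obtain ⟨s, hs'⟩ : ∃ s : ℝ, s = (p.1 : ℝ) / (p.2 : ℝ) := ⟨_, rfl⟩
      obtain ⟨s₀, hs₀'⟩ : ∃ s : ℝ, s = (p₀.1 : ℝ) / (p₀.2 : ℝ) := ⟨_, rfl⟩
      have e1 : (1 / 2 : ℝ) ≤ s := by rw [hs']; exact hs _ _ h1 h2 h3 h4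
      have e2 : (1 / 2 : ℝ) ≤ s₀ := by rw [hs₀']; exact hs _ _ k1 k2 k3 k4
      have e3 : s₀ ≤ s := by rw [hs', hs₀']; exact hmin p hp
      rw [← div_pow, ← hs', abs_le] at h10
      rw [← div_pow, ← hs₀', abs_le] at k10
      rw [← hs', ← hs₀']
      have e4 : s ^ 4 - s₀ ^ 4 ≤ 2 * δ := by linarith [h10.1, k10.2]
      have e5 : s ^ 4 - s₀ ^ 4 = (s - s₀) * (s ^ 3 + s ^ 2 * s₀ + s * s₀ ^ 2 + s₀ ^ 3) := by ring
      have e6 : (1 / 2 : ℝ) ≤ s ^ 3 + s ^ 2 * s₀ + s * s₀ ^ 2 + s₀ ^ 3 := by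
        have f1 : (1 / 2 : ℝ) ^ 3 ≤ s ^ 3 := pow_le_pow_left₀ (by norm_num) e1 3
        have f2 : (1 / 2 : ℝ) ^ 3 ≤ s₀ ^ 3 := pow_le_pow_left₀ (by norm_num) e2 3
        have f3 : (1 / 2 : ℝ) ^ 2 * (1 / 2) ≤ s ^ 2 * s₀ :=
          mul_le_mul (pow_le_pow_left₀ (by norm_num) e1 2) e2 (by norm_num) (by positivity)
        have f4 : (1 / 2 : ℝ) * (1 / 2) ^ 2 ≤ s * s₀ ^ 2 :=
          mul_le_mul e1 (pow_le_pow_left₀ (by norm_num) e2 2) (by norm_num) (by linarith)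
        norm_num at f1 f2 f3 f4 ⊢
        linarith
      have e7 : (s - s₀) * (1 / 2) ≤ s ^ 4 - s₀ ^ 4 := by
        rw [e5]
        exact mul_le_mul_of_nonneg_left e6 (by linarith)
      linarith
    · intro p hp p' hp'
      obtain ⟨hpA, hpc⟩ := Finset.mem_filter.mp hp
      obtain ⟨hpA', hpc'⟩ := Finset.mem_filter.mp hp'
      have h1 : c p = c p' := ZMod.val_injective M (hpc.trans hpc'.symm)
      have h2 := hcu p hpA
      have h3 := hcu p' hpA'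
      rw [← h1] at h3
      rw [← ZMod.intCast_zmod_eq_zero_iff_dvd]
      push_cast
      rw [sub_eq_zero]
      have h4 : ((p.1 : ZMod M) * (p'.2 : ZMod M)) * (q.2 : ZMod M) =
          ((p'.1 : ZMod M) * (p.2 : ZMod M)) * (q.2 : ZMod M) := by
        calc ((p.1 : ZMod M) * (p'.2 : ZMod M)) * (q.2 : ZMod M)
            = ((p.1 : ZMod M) * (q.2 : ZMod M)) * (p'.2 : ZMod M) := by ring
          _ = (c p * ((p.2 : ZMod M) * (q.1 : ZMod M))) * (p'.2 : ZMod M) := by rw [h2]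
          _ = (c p * ((p'.2 : ZMod M) * (q.1 : ZMod M))) * (p.2 : ZMod M) := by ring
          _ = ((p'.1 : ZMod M) * (q.2 : ZMod M)) * (p.2 : ZMod M) := by rw [h3]
          _ = ((p'.1 : ZMod M) * (p.2 : ZMod M)) * (q.2 : ZMod M) := by ring
      exact (hun q hq).2.mul_right_cancel h4
  rw [hcard, Nat.cast_sum]
  calc ∑ ρ ∈ B, ((A.filter (fun p => (c p).val = ρ)).card : ℝ)
      ≤ ∑ _ρ ∈ B, (1 + 16 * δ * (D : ℝ) ^ 2 / (M : ℝ)) := Finset.sum_le_sum hfib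
    _ = (B.card : ℝ) * (1 + 16 * δ * (D : ℝ) ^ 2 / (M : ℝ)) := by
        rw [Finset.sum_const, nsmul_eq_mul]
    _ ≤ (R : ℝ) * (1 + 16 * δ * (D : ℝ) ^ 2 / (M : ℝ)) := by
        refine mul_le_mul_of_nonneg_right ?_ (by positivity)
        rw [hB]
        exact_mod_cast hR

/-- the predicate of QEE -/
def QP (H e g u K : ℕ) (t : ℝ) (b : ℤ) (S : Finset ℕ) (x : (ℕ × ℕ) × (ℕ × ℕ)) : Prop :=
  H < 2 * (e * x.1.1) ∧ e * x.1.1 ≤ H ∧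
    H < 2 * (e * x.1.2) ∧ e * x.1.2 ≤ H ∧ Nat.Coprime x.1.1 x.1.2 ∧
    Nat.gcd (e * x.1.1) u = g ∧ Nat.gcd (e * x.1.2) u = g ∧
    x.2.1 ∈ S ∧ x.2.2 ∈ S ∧ x.2.1 ≠ x.2.2 ∧
    (u : ℤ) ∣ 5 * ((e : ℤ) * ((x.1.1 : ℤ) * (x.2.1 : ℤ) ^ 4 - (x.1.2 : ℤ) * (x.2.2 : ℤ) ^ 4)) ∧
    |t - (b : ℝ) / (u : ℝ)| * (5 * ((e : ℝ) * |(x.1.1 : ℝ) * (x.2.1 : ℝ) ^ 4 -
      (x.1.2 : ℝ) * (x.2.2 : ℝ) ^ 4|)) ≤ 1 / (K : ℝ) ^ 4

theorem pos_of {H e x : ℕ} (h : H < 2 * (e * x)) : 1 ≤ x := by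
  rcases Nat.eq_zero_or_pos x with h0 | h0
  · subst h0
    simp at h
  · exact h0

theorem qee (slp : SlpStmt) (rtu : VM.RtuStmt) : QeeStmt := by
  classical
  intro ε hε
  obtain ⟨C', hC', hrtu⟩ := rtu 4 (by norm_num) (ε / 4) (by positivity)
  refine ⟨20000 * max 1 C', by positivity, ?_⟩
  intro N D K u H g e t b S hpar hg hgH hHN he heH
  obtain ⟨hp1, hp2, hD, hND2, hNK3, hDN2, hDK2, hDu, hbu, hWK, hWDK, hS⟩ := hpar
  obtain ⟨P, hP⟩ : ∃ P : (ℕ × ℕ) × (ℕ × ℕ) → Prop, P = QP H e g u K t b S := ⟨_, rfl⟩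
  have hgoal : (Nat.card {x : (ℕ × ℕ) × (ℕ × ℕ) // P x} : ℝ) ≤
      20000 * max 1 C' * (N : ℝ) ^ ε * (((g : ℝ) * (N : ℝ) / (H : ℝ)) * (D : ℝ) ^ 2 *
        ((H : ℝ) / (e : ℝ)) ^ 2 / WW N u t b + min ((D : ℝ) ^ 2) (((H : ℝ) / (e : ℝ)) ^ 2)) := ?_
  · rw [hP] at hgoal
    exact hgoal
  -- positivity
  have hu : 1 ≤ u := by omega
  have hK : 1 ≤ K := by
    rcases Nat.eq_zero_or_pos K with h | h
    · subst h; omega
    · exact h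
  have hH : 1 ≤ H := he.trans heH
  have hN : 1 ≤ N := hH.trans hHN
  have hDK : K ≤ N := by nlinarith
  have hur : (1 : ℝ) ≤ u := by exact_mod_cast hu
  have hWu : (u : ℝ) ≤ WW N u t b := le_max_left _ _
  have hW0 : 0 < WW N u t b := by linarith
  have hHr : (1 : ℝ) ≤ H := by exact_mod_cast hH
  have her : (1 : ℝ) ≤ e := by exact_mod_cast he
  have hNr : (1 : ℝ) ≤ N := by exact_mod_cast hN
  have hgr : (1 : ℝ) ≤ g := by exact_mod_cast hg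
  have hNε : (1 : ℝ) ≤ (N : ℝ) ^ ε := Real.one_le_rpow hNr hε.le
  have hmax : (1 : ℝ) ≤ max 1 C' := le_max_left _ _
  have hX0 : 0 ≤ ((g : ℝ) * (N : ℝ) / (H : ℝ)) * (D : ℝ) ^ 2 *
        ((H : ℝ) / (e : ℝ)) ^ 2 / WW N u t b := by positivity
  -- finiteness
  have hfin1 : ∀ x, P x → x.1 ∈ Finset.Icc 1 (H / e) ×ˢ Finset.Icc 1 (H / e) := by
    intro x hx
    rw [hP] at hx
    obtain ⟨h1, h2, h3, h4, -⟩ := hx
    rw [Finset.mem_product, Finset.mem_Icc, Finset.mem_Icc]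
    refine ⟨⟨pos_of h1, ?_⟩, ⟨pos_of h3, ?_⟩⟩
    · rw [Nat.le_div_iff_mul_le (by omega), mul_comm]; exact h2
    · rw [Nat.le_div_iff_mul_le (by omega), mul_comm]; exact h4
  have hfin2 : ∀ x, P x → x.2 ∈ S ×ˢ S := by
    intro x hx
    rw [hP] at hx
    obtain ⟨-, -, -, -, -, -, -, h8, h9, -⟩ := hx
    exact Finset.mem_product.mpr ⟨h8, h9⟩
  have hfin : {x | P x}.Finite := by
    refine Set.Finite.subset (((Finset.Icc 1 (H / e) ×ˢ Finset.Icc 1 (H / e)) ×ˢ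
      (S ×ˢ S)).finite_toSet) ?_
    intro x hx
    exact Finset.mem_coe.mpr (Finset.mem_product.mpr ⟨hfin1 x hx, hfin2 x hx⟩)
  -- the empty case
  by_cases hemp : ∃ x, P x
  swap
  · have h0 : Nat.card {x : (ℕ × ℕ) × (ℕ × ℕ) // P x} = 0 := by
      have : IsEmpty {x : (ℕ × ℕ) × (ℕ × ℕ) // P x} := ⟨fun x => hemp ⟨x.1, x.2⟩⟩
      exact Nat.card_of_isEmpty
    rw [h0, Nat.cast_zero]
    positivity
  obtain ⟨x₀, hx₀⟩ := hemp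
  obtain ⟨M, hMdef⟩ : ∃ M : ℕ, M = u / Nat.gcd u (5 * e) := ⟨_, rfl⟩
  have hMge : u ≤ 5 * g * M := by
    rw [hP] at hx₀
    rw [hMdef]
    exact M_ge hu hx₀.2.2.2.2.2.1
  have hM : 1 ≤ M := by
    rcases Nat.eq_zero_or_pos M with h | h
    · subst h; omega
    · exact h
  have hMu : M ∣ u := by
    rw [hMdef]
    exact Nat.div_dvd_of_dvd (Nat.gcd_dvd_left _ _)
  have hMr : (1 : ℝ) ≤ M := by exact_mod_cast hM
  have hMger : (u : ℝ) ≤ 5 * g * M := by exact_mod_cast hMge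
  obtain ⟨δ, hδ⟩ : ∃ δ : ℝ, δ = 250 * u * N / (WW N u t b * H) := ⟨_, rfl⟩
  have hδ0 : 0 ≤ δ := by rw [hδ]; positivity
  have hδM : δ / M ≤ 1250 * (g * N / H) / WW N u t b := by
    rw [hδ, div_div, mul_div_assoc', div_div, div_le_div_iff₀ (by positivity) (by positivity)]
    have : (u : ℝ) * (250 * N * (H * WW N u t b)) ≤ (5 * g * M) * (250 * N * (H * WW N u t b)) :=
      mul_le_mul_of_nonneg_right hMger (by positivity)
    calc 250 * (u : ℝ) * N * (H * WW N u t b) = (u : ℝ) * (250 * N * (H * WW N u t b)) := by ring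
      _ ≤ (5 * g * M) * (250 * N * (H * WW N u t b)) := this
      _ = 1250 * (g * N) * (WW N u t b * H * M) := by ring
  have hYr : ((H / e : ℕ) : ℝ) ≤ (H : ℝ) / (e : ℝ) := Nat.cast_div_le
  -- the common facts
  have hkey : ∀ x, P x → (e : ℝ) * |(x.1.1 : ℝ) * (x.2.1 : ℝ) ^ 4 -
      (x.1.2 : ℝ) * (x.2.2 : ℝ) ^ 4| * WW N u t b ≤ 125 * u * N * (D : ℝ) ^ 4 := by
    intro x hx
    rw [hP] at hx
    obtain ⟨-, h2, -, h4, -, -, -, h8, h9, -, -, h12⟩ := hx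
    exact key hp2 hK hHN h2 h4 (hS _ h8).2.1 (hS _ h9).2.1 h12
  have hdvd : ∀ x, P x → (M : ℤ) ∣ (x.1.1 : ℤ) * (x.2.1 : ℤ) ^ 4 -
      (x.1.2 : ℤ) * (x.2.2 : ℤ) ^ 4 := by
    intro x hx
    rw [hP] at hx
    rw [hMdef]
    exact dvd_M hu _ hx.2.2.2.2.2.2.2.2.2.2.1
  -- first bound
  have hal : (Nat.card {x : (ℕ × ℕ) × (ℕ × ℕ) // P x} : ℝ) ≤
      ((S ×ˢ S).card : ℝ) * (1 + 2 * δ * ((H / e : ℕ) : ℝ) ^ 2 / (M : ℝ)) := by
    refine Kit.card_fib_le hfin (fun x => x.2) (S ×ˢ S) _ hfin2 ?_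
    intro y hy
    rw [Finset.mem_product] at hy
    have hA0 : ∀ p : ℕ × ℕ, P (p, y) → p ∈ Finset.Icc 1 (H / e) ×ˢ Finset.Icc 1 (H / e) :=
      fun p hp => hfin1 (p, y) hp
    have hQfin : {p : ℕ × ℕ | P (p, y)}.Finite :=
      Set.Finite.subset (Finset.finite_toSet _) fun p hp => Finset.mem_coe.mpr (hA0 p hp)
    have h1 : Nat.card {x : (ℕ × ℕ) × (ℕ × ℕ) // P x ∧ x.2 = y} ≤
        Nat.card {p : ℕ × ℕ // P (p, y)} := by
      refine Kit.card_inj_le (fun x => x.1) hQfin ?_ ?_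
      · rintro ⟨p, q⟩ ⟨hx, hq⟩
        simp only at hq
        subst hq
        exact hx
      · rintro ⟨p, q⟩ ⟨p', q'⟩ ⟨_, hq⟩ ⟨_, hq'⟩ hpp
        simp only at hq hq' hpp
        rw [hq, hq', hpp]
    rw [Kit.card_eq_filter (P := fun p : ℕ × ℕ => P (p, y)) _ hA0] at h1
    refine (Nat.cast_le.mpr h1).trans ?_
    refine al slp _ (H / e) M y.1 y.2 δ hM hδ0 (cop (hS _ hy.1).2.2.1 (hS _ hy.1).2.2.2 hMu) ?_
    intro p hp
    have hpP := (Finset.mem_filter.mp hp).2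
    have hpI := (Finset.mem_filter.mp hp).1
    rw [Finset.mem_product, Finset.mem_Icc, Finset.mem_Icc] at hpI
    have hk := hkey _ hpP
    have hdv := hdvd _ hpP
    rw [hP] at hpP
    obtain ⟨h1, h2, h3, h4, h5, -⟩ := hpP
    refine ⟨hpI.1.1, hpI.2.1, hpI.2.2, h5, ?_, hdv⟩
    rw [hδ]
    exact slope hW0 hH he h3 (hS _ hy.1).1 hk
  -- second bound
  obtain ⟨R, hR⟩ : ∃ R : ℕ, R = ((Finset.range M).filter
    (fun x => Nat.Coprime x M ∧ x ^ 4 ≡ 1 [MOD M])).card := ⟨_, rfl⟩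
  have hbe : (Nat.card {x : (ℕ × ℕ) × (ℕ × ℕ) // P x} : ℝ) ≤
      ((Finset.Icc 1 (H / e) ×ˢ Finset.Icc 1 (H / e)).card : ℝ) *
        ((R : ℝ) * (1 + 16 * δ * (D : ℝ) ^ 2 / (M : ℝ))) := by
    refine Kit.card_fib_le hfin (fun x => x.1) _ _ hfin1 ?_
    intro y hy
    have hA0 : ∀ p : ℕ × ℕ, P (y, p) → p ∈ S ×ˢ S := fun p hp => hfin2 (y, p) hp
    have hQfin : {p : ℕ × ℕ | P (y, p)}.Finite :=
      Set.Finite.subset (Finset.finite_toSet _) fun p hp => Finset.mem_coe.mpr (hA0 p hp)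
    have h1 : Nat.card {x : (ℕ × ℕ) × (ℕ × ℕ) // P x ∧ x.1 = y} ≤
        Nat.card {p : ℕ × ℕ // P (y, p)} := by
      refine Kit.card_inj_le (fun x => x.2) hQfin ?_ ?_
      · rintro ⟨p, q⟩ ⟨hx, hq⟩
        simp only at hq
        subst hq
        exact hx
      · rintro ⟨p, q⟩ ⟨p', q'⟩ ⟨_, hq⟩ ⟨_, hq'⟩ hpp
        simp only at hq hq' hpp
        rw [hq, hq', hpp]
    rw [Kit.card_eq_filter (P := fun p : ℕ × ℕ => P (y, p)) _ hA0] at h1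
    refine (Nat.cast_le.mpr h1).trans ?_
    rcases ((S ×ˢ S).filter (fun p : ℕ × ℕ => P (y, p))).eq_empty_or_nonempty with h0 | ⟨q, hq⟩
    · rw [h0]
      simp only [Finset.card_empty, Nat.cast_zero]
      positivity
    have hqP := (Finset.mem_filter.mp hq).2
    have hqdv := hdvd _ hqP
    have hyM : Nat.Coprime y.1 M := by
      rw [hP] at hqP
      obtain ⟨h1, h2, h3, h4, h5, h6, h7, h8, h9, -⟩ := hqP
      exact cop_x hMu h5 (hS _ h9).2.2.1 (hS _ h9).2.2.2 hqdv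
    refine be slp _ D M y.1 y.2 u R δ hM hMu hδ0 hyM (le_of_eq hR.symm) ?_
    intro p hp
    have hpP := (Finset.mem_filter.mp hp).2
    have hk := hkey _ hpP
    have hdv := hdvd _ hpP
    rw [hP] at hpP
    obtain ⟨h1, h2, h3, h4, h5, h6, h7, h8, h9, h10, -⟩ := hpP
    obtain ⟨a1, a2, a3, a4⟩ := hS _ h8
    obtain ⟨b1, b2, b3, b4⟩ := hS _ h9
    refine ⟨a1, a2, b1, b2, a3, b3, h10, a4, b4, ?_, hdv⟩
    rw [hδ]
    rw [abs_sub_comm] at hk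
    exact slope hW0 hH he h1 b1 hk
  -- the number of `(d, d')`
  have hScard : ((S ×ˢ S).card : ℝ) ≤ (D : ℝ) ^ 2 := by
    have h1 : S.card ≤ D := by
      have h2 : S ⊆ Finset.Ioc D (2 * D) := by
        intro d hd
        exact Finset.mem_Ioc.mpr ⟨(hS _ hd).1, (hS _ hd).2.1⟩
      have h3 := Finset.card_le_card h2
      rw [Nat.card_Ioc] at h3
      omega
    have h1r : (S.card : ℝ) ≤ D := by exact_mod_cast h1
    rw [Finset.card_product, Nat.cast_mul, sq]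
    exact mul_le_mul h1r h1r (Nat.cast_nonneg _) (Nat.cast_nonneg _)
  have hYcard : ((Finset.Icc 1 (H / e) ×ˢ Finset.Icc 1 (H / e)).card : ℝ) ≤
      ((H : ℝ) / (e : ℝ)) ^ 2 := by
    rw [Finset.card_product, Nat.card_Icc, Nat.add_sub_cancel, Nat.cast_mul, sq]
    exact mul_le_mul hYr hYr (Nat.cast_nonneg _) (by positivity)
  -- the number of roots
  have hRr : (R : ℝ) ≤ C' * (N : ℝ) ^ ε := by
    have h1 : (R : ℝ) ≤ C' * (M : ℝ) ^ (ε / 4) := by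
      rw [hR]
      exact hrtu M hM
    have h2 : (M : ℝ) ≤ (N : ℝ) ^ (4 : ℕ) := by
      have a1 : (M : ℝ) ≤ u := by exact_mod_cast Nat.le_of_dvd hu hMu
      have a2 : (K : ℝ) ^ 4 ≤ (N : ℝ) ^ 4 :=
        pow_le_pow_left₀ (Nat.cast_nonneg _) (by exact_mod_cast hDK) 4
      linarith
    have h3 : (M : ℝ) ^ (ε / 4) ≤ (N : ℝ) ^ ε := by
      calc (M : ℝ) ^ (ε / 4) ≤ ((N : ℝ) ^ (4 : ℕ)) ^ (ε / 4) :=
            Real.rpow_le_rpow (Nat.cast_nonneg _) h2 (by positivity)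
        _ = (N : ℝ) ^ ε := by
            rw [← Real.rpow_natCast, ← Real.rpow_mul (Nat.cast_nonneg _)]
            congr 1
            push_cast
            ring
    exact h1.trans (mul_le_mul_of_nonneg_left h3 hC'.le)
  obtain ⟨X, hX⟩ : ∃ X : ℝ, X = ((g : ℝ) * (N : ℝ) / (H : ℝ)) * (D : ℝ) ^ 2 *
        ((H : ℝ) / (e : ℝ)) ^ 2 / WW N u t b := ⟨_, rfl⟩
  have hal' : (Nat.card {x : (ℕ × ℕ) × (ℕ × ℕ) // P x} : ℝ) ≤ (D : ℝ) ^ 2 + 2500 * X := by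
    have h1 : 2 * δ * ((H / e : ℕ) : ℝ) ^ 2 / (M : ℝ) ≤
        2500 * ((g : ℝ) * (N : ℝ) / (H : ℝ)) / WW N u t b * ((H : ℝ) / (e : ℝ)) ^ 2 := by
      calc 2 * δ * ((H / e : ℕ) : ℝ) ^ 2 / (M : ℝ) = 2 * (δ / M) * ((H / e : ℕ) : ℝ) ^ 2 := by ring
        _ ≤ 2 * (1250 * (g * N / H) / WW N u t b) * ((H : ℝ) / (e : ℝ)) ^ 2 := by
            refine mul_le_mul ?_ ?_ (by positivity) (by positivity)
            · linarith
            · exact pow_le_pow_left₀ (Nat.cast_nonneg _) hYr 2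
        _ = 2500 * ((g : ℝ) * (N : ℝ) / (H : ℝ)) / WW N u t b * ((H : ℝ) / (e : ℝ)) ^ 2 := by ring
    calc (Nat.card {x : (ℕ × ℕ) × (ℕ × ℕ) // P x} : ℝ)
        ≤ ((S ×ˢ S).card : ℝ) * (1 + 2 * δ * ((H / e : ℕ) : ℝ) ^ 2 / (M : ℝ)) := hal
      _ ≤ (D : ℝ) ^ 2 * (1 + 2500 * ((g : ℝ) * (N : ℝ) / (H : ℝ)) / WW N u t b *
            ((H : ℝ) / (e : ℝ)) ^ 2) :=
          mul_le_mul hScard (by linarith) (by positivity) (by positivity)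
      _ = (D : ℝ) ^ 2 + 2500 * X := by rw [hX]; ring
  have hbe' : (Nat.card {x : (ℕ × ℕ) × (ℕ × ℕ) // P x} : ℝ) ≤
      C' * (N : ℝ) ^ ε * (((H : ℝ) / (e : ℝ)) ^ 2 + 20000 * X) := by
    have h1 : 16 * δ * (D : ℝ) ^ 2 / (M : ℝ) ≤
        20000 * ((g : ℝ) * (N : ℝ) / (H : ℝ)) / WW N u t b * (D : ℝ) ^ 2 := by
      calc 16 * δ * (D : ℝ) ^ 2 / (M : ℝ) = 16 * (δ / M) * (D : ℝ) ^ 2 := by ring
        _ ≤ 16 * (1250 * (g * N / H) / WW N u t b) * (D : ℝ) ^ 2 := by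
            refine mul_le_mul_of_nonneg_right ?_ (by positivity)
            linarith
        _ = 20000 * ((g : ℝ) * (N : ℝ) / (H : ℝ)) / WW N u t b * (D : ℝ) ^ 2 := by ring
    calc (Nat.card {x : (ℕ × ℕ) × (ℕ × ℕ) // P x} : ℝ)
        ≤ ((Finset.Icc 1 (H / e) ×ˢ Finset.Icc 1 (H / e)).card : ℝ) *
            ((R : ℝ) * (1 + 16 * δ * (D : ℝ) ^ 2 / (M : ℝ))) := hbe
      _ ≤ ((H : ℝ) / (e : ℝ)) ^ 2 * ((C' * (N : ℝ) ^ ε) *
            (1 + 20000 * ((g : ℝ) * (N : ℝ) / (H : ℝ)) / WW N u t b * (D : ℝ) ^ 2)) := by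
          refine mul_le_mul hYcard ?_ (by positivity) (by positivity)
          exact mul_le_mul hRr (by linarith) (by positivity) (by positivity)
      _ = C' * (N : ℝ) ^ ε * (((H : ℝ) / (e : ℝ)) ^ 2 + 20000 * X) := by rw [hX]; ring
  rw [← hX] at hX0 ⊢
  rcases le_total ((D : ℝ) ^ 2) (((H : ℝ) / (e : ℝ)) ^ 2) with hle | hle
  · rw [min_eq_left hle]
    refine hal'.trans ?_
    have h1 : (1 : ℝ) ≤ max 1 C' * (N : ℝ) ^ ε := one_le_mul_of_one_le_of_one_le hmax hNε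
    calc (D : ℝ) ^ 2 + 2500 * X ≤ 1 * (20000 * (X + (D : ℝ) ^ 2)) := by
          have : 0 ≤ (D : ℝ) ^ 2 := by positivity
          linarith
      _ ≤ (max 1 C' * (N : ℝ) ^ ε) * (20000 * (X + (D : ℝ) ^ 2)) :=
          mul_le_mul_of_nonneg_right h1 (by positivity)
      _ = 20000 * max 1 C' * (N : ℝ) ^ ε * (X + (D : ℝ) ^ 2) := by ring
  · rw [min_eq_right hle]
    refine hbe'.trans ?_
    have h1 : C' * (N : ℝ) ^ ε ≤ max 1 C' * (N : ℝ) ^ ε :=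
      mul_le_mul_of_nonneg_right (le_max_right _ _) (by positivity)
    calc C' * (N : ℝ) ^ ε * (((H : ℝ) / (e : ℝ)) ^ 2 + 20000 * X)
        ≤ (max 1 C' * (N : ℝ) ^ ε) * (20000 * (X + ((H : ℝ) / (e : ℝ)) ^ 2)) := by
          refine mul_le_mul h1 ?_ (by positivity) (by positivity)
          have : 0 ≤ ((H : ℝ) / (e : ℝ)) ^ 2 := by positivity
          linarith
      _ = 20000 * max 1 C' * (N : ℝ) ^ ε * (X + ((H : ℝ) / (e : ℝ)) ^ 2) := by ring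

end Pool.Agent.VM5.H89
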